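import Pool.Agent.H76.HMS.TMA

/-!
# Binary search for the least makespan, as a function on bit lists
-/

set_option autoImplicit false

namespace Pool.HMS.Opt

open TMLib Finset Polynomial Turing T76 Pool.Agent.H74.PPAD

variable {α β : Type} [Enc α] [Enc β]

/-- one step of the binary search: `s.1` is a list of ones, `s.2` the known leading bits -/
def bstep (F : List Bool → Bool) (s : List Bool × List Bool) : List Bool × List Bool :=
  (s.1.tail, (!(F (s.1.tail ++ false :: s.2))) :: s.2)

lemma num_ones (k : ℕ) (l : List Bool) :
    num (List.replicate k true ++ l) + 1 = (num l + 1) * 2 ^ k := by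
  induction k with
  | zero => simp
  | succ k ih =>
    rw [List.replicate_succ, List.cons_append, num, Bool.toNat_true, pow_succ]
    have : 1 + 2 * num (List.replicate k true ++ l) + 1 =
      2 * (num (List.replicate k true ++ l) + 1) := by ring
    rw [this, ih]
    ring

lemma bstep_spec (F : List Bool → Bool) (opt : ℕ) (hF : ∀ t, F t = true ↔ opt ≤ num t) :
    ∀ (k : ℕ) (acc : List Bool), num acc * 2 ^ k ≤ opt → opt < (num acc + 1) * 2 ^ k →
      num ((bstep F)^[k] (List.replicate k true, acc)).2 = opt := by
  intro k
  induction k with
  | zero =>
    intro acc h1 h2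
    simp only [Function.iterate_zero, id_eq, pow_zero, mul_one] at *
    omega
  | succ k ih =>
    intro acc h1 h2
    rw [Function.iterate_succ_apply]
    have e : bstep F (List.replicate (k + 1) true, acc) =
        (List.replicate k true, (!(F (List.replicate k true ++ false :: acc))) :: acc) := by
      unfold bstep
      simp
    rw [e]
    have h3 := num_ones k (false :: acc)
    have h4 : num (false :: acc) = 2 * num acc := by simp [num]
    rw [h4] at h3
    rw [pow_succ] at h1 h2
    have h5 := hF (List.replicate k true ++ false :: acc)
    apply ih
    · cases hc : F (List.replicate k true ++ false :: acc) with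
      | true =>
        simp only [Bool.not_true, h4]
        calc 2 * num acc * 2 ^ k = num acc * (2 ^ k * 2) := by ring
          _ ≤ opt := h1
      | false =>
        simp only [Bool.not_false]
        have h6 : ¬ opt ≤ num (List.replicate k true ++ false :: acc) := by
          rw [← h5, hc]; simp
        have h7 : num (true :: acc) = 1 + 2 * num acc := by simp [num]
        rw [h7]
        have : (1 + 2 * num acc) * 2 ^ k = (2 * num acc + 1) * 2 ^ k := by ring
        rw [this, ← h3]
        omega
    · cases hc : F (List.replicate k true ++ false :: acc) with
      | true =>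
        simp only [Bool.not_true, h4]
        have h6 := h5.1 hc
        rw [← h3]
        omega
      | false =>
        simp only [Bool.not_false]
        have h7 : num (true :: acc) = 1 + 2 * num acc := by simp [num]
        rw [h7]
        calc opt < (num acc + 1) * (2 ^ k * 2) := h2
          _ = (1 + 2 * num acc + 1) * 2 ^ k := by ring

lemma bstep_len (F : List Bool → Bool) (k : ℕ) : ∀ s : List Bool × List Bool,
    ((bstep F)^[k] s).1.length ≤ s.1.length ∧ ((bstep F)^[k] s).2.length = s.2.length + k := by
  induction k with
  | zero => intro s; simp
  | succ k ih =>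
    intro s
    rw [Function.iterate_succ_apply]
    obtain ⟨h1, h2⟩ := ih (bstep F s)
    have h3 : (bstep F s).1.length ≤ s.1.length := by
      unfold bstep
      simp
    have h4 : (bstep F s).2.length = s.2.length + 1 := by
      unfold bstep
      simp
    constructor
    · exact h1.trans h3
    · rw [h2, h4]
      ring

/-- the binary search with `l.length` bits -/
def bsearch (F : List Bool → Bool) (l : List Bool) : List Bool :=
  canon (l.foldl (fun s _ => bstep F s) (l.map fun _ => true, [])).2

lemma bsearch_spec (F : List Bool → Bool) (l : List Bool) (opt : ℕ)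
    (hF : ∀ t, F t = true ↔ opt ≤ num t) (ho : opt < 2 ^ l.length) :
    bsearch F l = opt.bits := by
  unfold bsearch
  rw [canon_eq]
  congr 1
  have h1 : l.foldl (fun s _ => bstep F s) (l.map fun _ => true, []) =
      (bstep F)^[l.length] (l.map fun _ => true, []) := List.foldl_const _ _ _
  rw [h1]
  have h2 : (l.map fun _ => true) = List.replicate l.length true := by
    rw [List.map_const']
  rw [h2]
  apply bstep_spec F opt hF
  · simp [num]
  · simpa [num] using ho

lemma ptime_bsearch {F : α → List Bool → Bool} {l : α → List Bool}
    (hF : PTime (fun p : α × List Bool => F p.1 p.2)) (hl : PTime l) :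
    PTime (fun x => bsearch (F x) (l x)) := by
  unfold bsearch
  apply ptime_canon
  refine PTime.snd ?_
  refine PTime.foldl (f := fun x s (_ : Bool) => bstep (F x) s)
    (init := fun x => ((l x).map fun _ => true, ([] : List Bool))) (l := l) ?_
    (PTime.pair (PTime.map hl (PTime.const true)) (PTime.const [])) hl
    (h := fun x => 3 + 8 * sz (l x)) ((PB.const 3).add ((PB.const 8).mul hl.pb)) ?_
  · unfold bstep
    refine PTime.pair (by fun_prop) (PTime.cons (PTime.not ?_) (by fun_prop))
    exact hF.comp (f := fun p : α × (List Bool × List Bool) × Bool =>
      (p.1, p.2.1.1.tail ++ false :: p.2.1.2)) (by fun_prop)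
  · intro x l' hl'
    have h1 : l'.foldl (fun s _ => bstep (F x) s) ((l x).map fun _ => true, []) =
        (bstep (F x))^[l'.length] ((l x).map fun _ => true, []) := List.foldl_const _ _ _
    have h2 := bstep_len (F x) l'.length ((l x).map fun _ => true, [])
    show sz (l'.foldl (fun s _ => bstep (F x) s) ((l x).map fun _ => true, [])) ≤ _
    rw [h1]
    have h3 := hl'.length_le
    have h4 := length_lt_sz (l x)
    have h5 := sz_bits_le' ((bstep (F x))^[l'.length] ((l x).map fun _ => true, [])).1
    have h6 := sz_bits_le' ((bstep (F x))^[l'.length] ((l x).map fun _ => true, [])).2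
    rw [sz_pair]
    simp only [List.length_map, List.length_nil] at h2
    omega

end Pool.HMS.Opt
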