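import Pool.Agent.H47.HMS.MACH
import Pool.Agent.TM.Export

/-!
# A machine with an input stack over `Option Bool` around a program, output a list of bits
-/

set_option autoImplicit false

namespace Pool.HMS

open TMLib Turing

namespace Mach

/-- all statements -/
def stm2 (p : Prog) : Λm p → TM2.Stmt Γm (Λm p) Sg
  | Sum.inl l => stmtOf p Sum.inl (Sum.inr (some true)) l
  | Sum.inr none => .push (some .m) (fun _ => false) (.goto fun _ => Sum.inr (some false))
  | Sum.inr (some false) => rd p
  | Sum.inr (some true) => .halt

/-- the machine -/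
def mach2 (p : Prog) : FinTM2 where
  K := Option Stk
  k₀ := none
  k₁ := some .a
  Γ := Γm
  Λ := Λm p
  main := Sum.inr none
  σ := Sg
  initialState := none
  Γk₀Fin := inferInstanceAs (Fintype (Option Bool))
  m := stm2 p

theorem reach_rd2 (p : Prog) : ∀ (L acc : List (Option Bool)),
    Reach (stm2 p) (cfg (some (Sum.inr (some false))) L (ms (enc acc).code))
      (cfg (some (Sum.inl (entry p))) [] (ms (enc (L.reverse ++ acc)).code)) (L.length + 1) := by
  intro L
  induction L with
  | nil =>
    intro acc
    apply Reach.one
    change some (⟨some (Sum.inl (entry p)), none,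
      upN (stk [] (ms (enc acc).code)) []⟩ : TM2.Cfg Γm (Λm p) Sg) = _
    rw [update_none]
    rfl
  | cons o L ih =>
    intro acc
    have h1 : Reach (stm2 p) (cfg (some (Sum.inr (some false))) (o :: L) (ms (enc acc).code))
        (cfg (some (Sum.inr (some false))) L (ms (enc (o :: acc)).code)) 1 := by
      apply Reach.one
      have hq : ∀ o : Option Bool, TM2.stepAux (pushes (word o)
          (.load (fun _ => none) (.goto fun _ => Sum.inr (some false)))) (some o)
          (upN (stk (o :: L) (ms (enc acc).code)) L) =
          (cfg (some (Sum.inr (some false))) L (ms (enc (o :: acc)).code) :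
            TM2.Cfg Γm (Λm p) Sg) := by
        intro o
        rw [update_none, step_pushes, ← word_spec]
        rfl
      rcases o with _ | _ | _
      · exact congrArg some (hq none)
      · exact congrArg some (hq (some false))
      · exact congrArg some (hq (some true))
    have h2 := h1.trans (ih (o :: acc))
    rw [List.reverse_cons, List.append_assoc, List.singleton_append, List.length_cons]
    rw [show L.length + 1 + 1 = 1 + (L.length + 1) by omega]
    exact h2

theorem main2 (p : Prog) (F : List (Option Bool) → List Bool) (τ : List (Option Bool) → ℕ)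
    (hF : ∀ L, Runs p (ms (enc L.reverse).code) (.ofA (F L)) (τ L)) :
    ∃ tm : Turing.FinTM2, ∃ ei : tm.Γ tm.k₀ ≃ Option Bool, ∃ eo : tm.Γ tm.k₁ ≃ Bool,
      ∀ L, Nonempty (Turing.TM2OutputsInTime tm (L.map ei.symm) (some ((F L).map eo.symm))
        (τ L + 20 * (L.length + 1))) := by
  refine ⟨mach2 p, Equiv.refl (Option Bool), Equiv.refl Bool, fun L => ?_⟩
  obtain ⟨t, ht, hr⟩ := hF L
  have h0 : Reach (stm2 p) (cfg (some (Sum.inr none)) L ⟨[], [], [], []⟩)
      (cfg (some (Sum.inr (some false))) L (ms (enc ([] : List (Option Bool))).code)) 1 := by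
    apply Reach.one
    change some (⟨some (Sum.inr (some false)), none,
      upS (stk L ⟨[], [], [], []⟩) .m [false]⟩ :
        TM2.Cfg Γm (Λm p) Sg) = _
    rw [update_some]
    rfl
  have h1 := reach_rd2 p L []
  rw [List.append_nil] at h1
  have h2 := reach_of_run (stm2 p) hr Sum.inl (Sum.inr (some true)) [] (fun l => rfl)
  have h3 : Reach (stm2 p) (cfg (some (Sum.inr (some true))) [] (.ofA (F L)))
      (cfg none [] (.ofA (F L))) 1 := by
    apply Reach.one
    rfl
  have h4 := h0.trans (h1.trans (h2.trans h3))
  have e1 : initList (mach2 p) L = cfg (some (Sum.inr none)) L ⟨[], [], [], []⟩ := by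
    simp only [initList, cfg]
    congr 1
    funext k
    rcases k with _ | k
    · rfl
    · cases k <;> rfl
  have e2 : haltList (mach2 p) (F L) = cfg none [] (.ofA (F L)) := by
    simp only [haltList, cfg]
    congr 1
    funext k
    rcases k with _ | k
    · rfl
    · cases k <;> rfl
  have h5 : Nonempty (TM2OutputsInTime (mach2 p) L (some (F L)) (τ L + 20 * (L.length + 1))) := by
    have hle : 1 + (L.length + 1 + (t + 1)) ≤ τ L + 20 * (L.length + 1) := by omega
    refine ⟨⟨⟨1 + (L.length + 1 + (t + 1)), ?_⟩, hle⟩⟩
    change (flip bind (TM2.step (stm2 p)))^[1 + (L.length + 1 + (t + 1))]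
      (some (initList (mach2 p) L)) = some (haltList (mach2 p) (F L))
    rw [e1, e2]
    exact h4
  have e3 : L.map (Equiv.refl (Option Bool)).symm = L := by
    simp
  have e4 : (F L).map (Equiv.refl Bool).symm = F L := by
    simp
  have key : ∀ (L' : List (Option Bool)) (O' : List Bool), L' = L → O' = F L →
      Nonempty (TM2OutputsInTime (mach2 p) L' (some O') (τ L + 20 * (L.length + 1))) := by
    rintro _ _ rfl rfl
    exact h5
  exact key _ _ e3 e4

end Mach

end Pool.HMS
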