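import Pool.Agent.H45.HMSO.Mach2
import Pool.Agent.H45.HMSO.Bin
import Pool.Agent.H76.HMS.Final

/-!
# The least makespan is computed in time `f(d) n^c`
-/

set_option autoImplicit false

namespace Pool.HMS.Opt

open TMLib Finset Polynomial Turing T76 Pool.Agent.H74.PPAD

/-- the input word: the number of machines, then the processing times and multiplicities of the job
types, all in binary, each followed by a separator -/
def inpW (m : ℕ) (l : List (ℕ × ℕ)) : List (Option Bool) :=
  List.map some (Nat.bits m) ++ ([none] : List (Option Bool)) ++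
    l.flatMap (fun q : ℕ × ℕ => List.map some (Nat.bits q.1) ++
      ([none] : List (Option Bool)) ++ List.map some (Nat.bits q.2) ++
      ([none] : List (Option Bool)))

abbrev PI := List Bool × List (List Bool × List Bool)

/-- the parser -/
def parW (L : List (Option Bool)) : PI :=
  ((PARSEaux.bl L).getD 0 [], PARSEaux.prs ((PARSEaux.bl L).drop 1))

lemma bl_inpW (m : ℕ) (l : List (ℕ × ℕ)) : PARSEaux.bl (inpW m l) =
    Nat.bits m :: l.flatMap fun q => [Nat.bits q.1, Nat.bits q.2] := by
  unfold PARSEaux.bl inpW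
  rw [List.foldl_append, List.foldl_append, PARSEaux.st_map,
    List.foldl_cons, List.foldl_nil, PARSEaux.st_none, PARSEaux.st_flat]
  simp

lemma parW_inp (m : ℕ) (l : List (ℕ × ℕ)) :
    parW (inpW m l) = (Nat.bits m, l.map fun q => (Nat.bits q.1, Nat.bits q.2)) := by
  unfold parW PARSEaux.prs
  rw [bl_inpW]
  simp only [List.getD_cons_zero, List.drop_succ_cons, List.drop_zero, PARSEaux.pt_flat,
    List.nil_append]

lemma ptime_parW : PTime parW := by
  have h1 : PTime PARSEaux.bl := PARSEaux.ptime_bl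
  have h2 : PTime (fun L => PARSEaux.prs ((PARSEaux.bl L).drop 1)) :=
    PARSEaux.ptime_prs.comp (f := fun L => (PARSEaux.bl L).drop 1) (by fun_prop)
  unfold parW
  fun_prop

/-- number of distinct nonzero processing times -/
def dd (p : PI) : ℕ := (g1 (p.1, [], p.2)).1

lemma g1_fst (p : PI) (t : List Bool) : (g1 (p.1, t, p.2)).1 = dd p := rfl

lemma g1_congr (a t t' : List Bool) (l : List (List Bool × List Bool)) (h : qn t = qn t') :
    g1 (a, t, l) = g1 (a, t', l) := by
  unfold g1 sideB mQ tQ insQ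
  simp only
  rw [h]

lemma qn_num (t : List Bool) : qn t = qn (num t).bits := by
  unfold qn zmk
  simp [num_bits']

/-- the feasibility test -/
def ftest (f : ℕ × Mat × ℚ × Vec × ℕ → Bool) (x : ℕ × List Bool × PI) (t : List Bool) : Bool :=
  g2 f (x.1, (g1 (x.2.2.1, t, x.2.2.2)).2)

lemma feas_test (f : ℕ × Mat × ℚ × Vec × ℕ → Bool) (bs : ℕ → ℕ)
    (hf : ∀ (d : ℕ) (rows : Mat) (B : ℚ) (y : Vec) (b : ℕ), bs d ≤ b → IsI B → 2 ≤ B →
      (∀ x ∈ Poly d rows, Box d B x) →
      (∀ x, Supp d x → (∀ r ∈ rows, 0 ≤ lin d (fun i => fn r (i + 1)) x) → ∀ i, x i = 0) →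
      y.length = d + 1 → (∀ i, IsI (fn y i)) →
      (f (d, rows, B, y, b) = true ↔ fn y ∈ IC (HA d rows)))
    (m : ℕ) (l : List (ℕ × ℕ)) (b : ℕ) (u : List Bool)
    (hb : bs (dd (Nat.bits m, l.map fun q => (Nat.bits q.1, Nat.bits q.2))) ≤ b) (t : List Bool) :
    ftest f (b, u, Nat.bits m, l.map fun q => (Nat.bits q.1, Nat.bits q.2)) t = true ↔
      Feas m (num t) l := by
  have h := feas_iff f bs hf m (num t) l b hb
  rw [← h]
  unfold ftest
  simp only
  rw [g1_congr _ t (num t).bits _ (qn_num t)]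

/-- second stage -/
def h2 (f : ℕ × Mat × ℚ × Vec × ℕ → Bool) (x : ℕ × List Bool × PI) : List Bool :=
  bsearch (ftest f x) x.2.1

lemma ptime_h2 {f : ℕ × Mat × ℚ × Vec × ℕ → Bool} (hf : PTime f) : PTime (h2 f) := by
  unfold h2
  refine ptime_bsearch (F := fun x => ftest f x) (l := fun x => x.2.1) ?_ (by fun_prop)
  unfold ftest
  have h1 : PTime (fun p : (ℕ × List Bool × PI) × List Bool =>
      (g1 (p.1.2.2.1, p.2, p.1.2.2.2)).2) :=
    PTime.snd (ptime_g1.comp (f := fun p : (ℕ × List Bool × PI) × List Bool =>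
      (p.1.2.2.1, p.2, p.1.2.2.2)) (by fun_prop))
  exact (ptime_g2 hf).comp (f := fun p : (ℕ × List Bool × PI) × List Bool =>
    (p.1.1, (g1 (p.1.2.2.1, p.2, p.1.2.2.2)).2)) (PTime.pair (by fun_prop) h1)

/-- first stage -/
def s1 (L : List (Option Bool)) : ℕ × List Bool × PI :=
  (dd (parW L), L.map fun _ => true, parW L)

lemma ptime_dd : PTime dd := by
  unfold dd
  exact PTime.fst (ptime_g1.comp (f := fun p : PI => (p.1, ([] : List Bool), p.2)) (by fun_prop))

lemma ptime_s1 : PTime s1 := by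
  unfold s1
  exact PTime.pair (ptime_dd.comp ptime_parW)
    (PTime.pair (PTime.map PTime.id (PTime.const true)) ptime_parW)

lemma Feas.mono {m T T' : ℕ} {l : List (ℕ × ℕ)} (h : Feas m T l) (hT : T ≤ T') : Feas m T' l := by
  obtain ⟨x, h1, h2⟩ := h
  exact ⟨x, h1, fun j => (h2 j).trans hT⟩

lemma feas_total {m T : ℕ} {l : List (ℕ × ℕ)} (h : Feas m T l) :
    Feas m (l.map fun q => q.2 * q.1).sum l := by
  obtain ⟨x, h1, h2⟩ := h
  refine ⟨x, h1, fun j => ?_⟩
  have e : ∑ i : Fin l.length, (l.get i).2 * (l.get i).1 = (l.map fun q => q.2 * q.1).sum :=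
    Fin.sum_univ_fun_getElem l (fun q : ℕ × ℕ => q.2 * q.1)
  rw [← e]
  apply Finset.sum_le_sum
  intro i _
  apply Nat.mul_le_mul_right
  rw [← h1 i]
  exact Finset.single_le_sum (f := fun j => x i j) (fun _ _ => Nat.zero_le _) (Finset.mem_univ j)

lemma lt_bits (n : ℕ) : n < 2 ^ (Nat.bits n).length := by
  rw [Nat.size_eq_bits_len]
  exact Nat.lt_size_self n

lemma total_lt (l : List (ℕ × ℕ)) : (l.map fun q => q.2 * q.1).sum + 1 ≤
    2 ^ (l.flatMap (fun q : ℕ × ℕ => List.map some (Nat.bits q.1) ++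
      ([none] : List (Option Bool)) ++ List.map some (Nat.bits q.2) ++
      ([none] : List (Option Bool)))).length := by
  induction l with
  | nil => simp
  | cons q l ih =>
    rw [List.flatMap_cons, List.length_append, pow_add, List.map_cons, List.sum_cons]
    have h1 := lt_bits q.1
    have h2 := lt_bits q.2
    set R := 2 ^ (l.flatMap (fun q : ℕ × ℕ => List.map some (Nat.bits q.1) ++
      ([none] : List (Option Bool)) ++ List.map some (Nat.bits q.2) ++
      ([none] : List (Option Bool)))).length with hR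
    have h3 : q.2 * q.1 + 1 ≤ 2 ^ (List.map some (Nat.bits q.1) ++
      ([none] : List (Option Bool)) ++ List.map some (Nat.bits q.2) ++
      ([none] : List (Option Bool))).length := by
      have e : (List.map some (Nat.bits q.1) ++ ([none] : List (Option Bool)) ++
          List.map some (Nat.bits q.2) ++ ([none] : List (Option Bool))).length =
          (Nat.bits q.2).length + (Nat.bits q.1).length + 2 := by
        simp
        omega
      rw [e, pow_add, pow_add]
      have h4 : q.2 * q.1 + 1 ≤ 2 ^ (Nat.bits q.2).length * 2 ^ (Nat.bits q.1).length := by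
        have : (q.2 + 1) * (q.1 + 1) ≤ 2 ^ (Nat.bits q.2).length * 2 ^ (Nat.bits q.1).length :=
          Nat.mul_le_mul h2 h1
        nlinarith
      omega
    have h5 : (q.2 * q.1 + 1) * ((l.map fun q => q.2 * q.1).sum + 1) ≤
        2 ^ (List.map some (Nat.bits q.1) ++ ([none] : List (Option Bool)) ++
          List.map some (Nat.bits q.2) ++ ([none] : List (Option Bool))).length * R :=
      Nat.mul_le_mul h3 ih
    refine le_trans ?_ h5
    nlinarith [Nat.zero_le (q.2 * q.1 * (l.map fun q => q.2 * q.1).sum)]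

lemma opt_lt {m : ℕ} {l : List (ℕ × ℕ)} {o : ℕ} (ho : ∀ T, Feas m T l ↔ o ≤ T) :
    o < 2 ^ (inpW m l).length := by
  have h1 : Feas m o l := (ho o).2 le_rfl
  have h2 := (ho _).1 (feas_total h1)
  have h3 := total_lt l
  have h4 : 2 ^ (l.flatMap (fun q : ℕ × ℕ => List.map some (Nat.bits q.1) ++
      ([none] : List (Option Bool)) ++ List.map some (Nat.bits q.2) ++
      ([none] : List (Option Bool)))).length ≤ 2 ^ (inpW m l).length := by
    apply Nat.pow_le_pow_right (by norm_num)
    unfold inpW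
    rw [List.length_append]
    omega
  omega

theorem opt_of_solve (hS : S_SOLVE) :
    ∃ f : ℕ → ℕ, Computable f ∧ ∃ c : ℕ, ∃ tm : Turing.FinTM2,
      ∃ ei : tm.Γ tm.k₀ ≃ Option Bool, ∃ eo : tm.Γ tm.k₁ ≃ Bool,
      ∀ (m : ℕ) (l : List (ℕ × ℕ)) (o : ℕ), (∀ T, Feas m T l ↔ o ≤ T) →
        Nonempty (Turing.TM2OutputsInTime tm ((inpW m l).map ei.symm)
          (some ((Nat.bits o).map eo.symm))
          (f (l.map Prod.fst).toFinset.card * (inpW m l).length ^ c)) := by
  obtain ⟨bs, ⟨F, hF, hbF⟩, f, hf, hsp⟩ := hS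
  obtain ⟨m0, hm0⟩ := exists_lt_ack_of_nat_primrec (Primrec.nat_iff.1 hF)
  obtain ⟨pa, G, hGc, hGm, ha⟩ := ack_thm m0
  have hg1 : PTime (fun L : List (Option Bool) => s1 L.reverse) :=
    ptime_s1.comp (PTime.reverse PTime.id)
  obtain ⟨B1, hB1⟩ := hg1.exists_size_le
  obtain ⟨p1, T1, h1⟩ := hg1
  obtain ⟨p2, T2, h2'⟩ := ptime_h2 hf
  obtain ⟨fb, hfb, c, hc⟩ := time_bound (T1 + 100 + 100 * X) B1 T2 G hGc hGm m0
  obtain ⟨tm, ei, eo, hM⟩ := Mach.main2
    (.seq p1 (.seq (.pop .m) (.seq pa (.seq (.push .m true) (.seq p2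
      (.seq outLoop (.seq (.pop .m) (mvAll .b .a))))))))
    (fun L => h2 f (ack m0 (s1 L).1, (s1 L).2))
    (fun L => T1.eval (sz L.reverse) + (1 + (G (s1 L).1 +
      (1 + (T2.eval (sz (ack m0 (s1 L).1, (s1 L).2)) +
        ((1 + 7 * (h2 f (ack m0 (s1 L).1, (s1 L).2)).length) +
          (1 + (1 + 4 * (h2 f (ack m0 (s1 L).1, (s1 L).2)).length)))))))) (by
    intro L
    have e1 := h1 L.reverse []
    simp only [List.reverse_reverse, List.append_nil] at e1
    set x := s1 L with hx
    have e2 : Runs (.pop .m) (ms (enc x).code) (ms ((enc x.1).code ++ (enc x.2).code)) 1 :=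
      Runs.pop .m (ms (enc x).code)
    have e3 := ha x.1 (enc x.2).code
    have e4 : Runs (.push .m true) (ms ((enc (ack m0 x.1)).code ++ (enc x.2).code))
        (ms (enc (ack m0 x.1, x.2)).code) 1 := Runs.push .m true _
    have e5 := h2' (ack m0 x.1, x.2) []
    simp only [List.append_nil] at e5
    set out := h2 f (ack m0 x.1, x.2) with hout
    have e6 := runs_outLoop out []
    rw [List.append_nil] at e6
    have e7 : Runs (.pop .m) ⟨[false], [], out.reverse, []⟩ ⟨[], [], out.reverse, []⟩ 1 :=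
      Runs.pop .m ⟨[false], [], out.reverse, []⟩
    have e8 := runs_mvAll_ba out.reverse [] [] []
    rw [List.append_nil, List.reverse_reverse, List.length_reverse] at e8
    exact e1.seq (e2.seq (e3.seq (e4.seq (e5.seq (e6.seq (e7.seq e8)))))))
  refine ⟨fb, hfb, c, tm, ei, eo, fun m l o ho => ?_⟩
  set L := inpW m l with hL
  have hp : parW L = (Nat.bits m, l.map fun q => (Nat.bits q.1, Nat.bits q.2)) := parW_inp m l
  have hb := hbF (s1 L).1
  have hlt := (hm0 (s1 L).1).le
  have hk : (s1 L).1 ≤ (l.map Prod.fst).toFinset.card := by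
    have := card_le m 0 l
    show dd (parW L) ≤ _
    rw [hp]
    simpa [dd] using this
  have hlen : 1 ≤ L.length := by rw [hL]; simp [inpW]; omega
  have hout : h2 f (ack m0 (s1 L).1, (s1 L).2) = Nat.bits o := by
    show bsearch (ftest f (ack m0 (s1 L).1, (s1 L).2)) (L.map fun _ => true) = _
    apply bsearch_spec
    · intro t
      have e : (s1 L).2 = (L.map fun _ => true, Nat.bits m,
          l.map fun q => (Nat.bits q.1, Nat.bits q.2)) := by
        show (L.map fun _ => true, parW L) = _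
        rw [hp]
      rw [e, feas_test f bs hsp m l _ _ _ t, ho]
      have e2 : dd (Nat.bits m, l.map fun q => (Nat.bits q.1, Nat.bits q.2)) = (s1 L).1 := by
        show _ = dd (parW L)
        rw [hp]
      rw [e2]
      exact hb.trans hlt
    · rw [List.length_map]
      exact opt_lt ho
  have hs : sz L.reverse ≤ 1 + 6 * L.length := by
    have := sz_input L.reverse
    rwa [List.length_reverse] at this
  have hw : sz (s1 L).2 ≤ B1.eval (sz L.reverse) := by
    have h := hB1 L.reverse
    simp only [List.reverse_reverse] at h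
    refine le_trans ?_ h
    have : sz (s1 L) = 1 + sz (s1 L).1 + sz (s1 L).2 := rfl
    omega
  have ht := hc L.length (l.map Prod.fst).toFinset.card (s1 L).1 (sz L.reverse) hlen hk hs
    (sz (s1 L).2) hw
  have hsz : sz (ack m0 (s1 L).1, (s1 L).2) = 1 + (2 * ack m0 (s1 L).1 + 1) + sz (s1 L).2 := by
    have e := sz_nat (ack m0 (s1 L).1)
    have : sz (ack m0 (s1 L).1, (s1 L).2) = 1 + sz (ack m0 (s1 L).1) + sz (s1 L).2 := rfl
    rw [this, e]
  have hol : (Nat.bits o).length ≤ L.length := by
    rw [Nat.size_eq_bits_len, Nat.size_le]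
    exact opt_lt ho
  have hsl := length_lt_sz L.reverse
  rw [List.length_reverse] at hsl
  have hout2 := hM L
  simp only [hsz, hout] at hout2
  refine outputs_mono hout2 (le_trans ?_ ht)
  have e100 : eval (sz L.reverse) (100 : ℕ[X]) = 100 := by simp
  simp only [eval_add, eval_mul, eval_X, e100]
  omega

end Pool.HMS.Opt
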