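import Pool.Agent.H45.HMSO.Opt

/-!
# The least makespan is computed in time `f(d) n^c`: assembly
-/

set_option autoImplicit false

namespace Pool.HMS.Opt

theorem solve : S_SOLVE := by
  have qop : S_QOP := fin_qop
  have qsum : S_QSUM := fin_qsum
  have eap : S_EAP := eap_thm
  have ekl : S_EKL := ekl_thm
  have eid : S_EID := eid_thm
  have esl : S_ESL := esl_thm
  have egr : S_EGR := egr_thm
  have ewl : S_EWL := ewl_thm
  have vpr : S_VPR := vpr_thm eap
  have vcb : S_VCB := vcb_thm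
  have vsg : S_VSG := vsg_thm
  have vrl : S_VRL := vrl_thm
  have vfe : S_VFE := vfe_thm
  have por : S_POR := por_thm qop qsum
  have vkc : S_VKC := vkc_thm vcb vpr vsg
  have vls : S_VLS := vls_thm vfl_thm vsg vrl vcb
  have vs1 : S_VS1 := vs1_thm vfe vpr esl ekl eap vcb
  have vsp : S_VSP := vsp_thm vs1 (vnb_thm vcb) vls vrl
  have vrk : S_VRK := vrk_thm egr esl ekl eap
  have vnd : S_VND := vnd_thm vdp_thm vd0_thm vkc vko_thm (vpo_thm por vpr) vsp vrk vsz_thm vls
    (vic_thm vpr vcb) vpr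
  have ens : S_ENS := ens_thm eap esl ekl (eor_thm eap) esz_thm egr eth_thm
  have h1 := s_lll
  have h2 := s_round qop qsum
  have h3 := exp_thm eap ewl eid ens (ept_thm qop qsum) epo_thm ecm_thm
  have h4 := ipx_thm por
  have h5 := hux_thm por sep_thm (hpt_thm qop qsum) (hor_thm por) hcl_thm
  have h6 := svx_thm ewl (vrt_thm eap vpr) (vs0_thm eid eap) vnd (vpt_thm qop qsum) vcm_thm
  exact h6 (h2 h1) (h3 (h2 h1)) (h5 (h3 (h2 h1)) (h4 (h3 (h2 h1))))

theorem opt_thm :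
    ∃ f : ℕ → ℕ, Computable f ∧ ∃ c : ℕ, ∃ tm : Turing.FinTM2,
      ∃ ei : tm.Γ tm.k₀ ≃ Option Bool, ∃ eo : tm.Γ tm.k₁ ≃ Bool,
      ∀ (m : ℕ) (l : List (ℕ × ℕ)) (o : ℕ), (∀ T, Feas m T l ↔ o ≤ T) →
        Nonempty (Turing.TM2OutputsInTime tm ((inpW m l).map ei.symm)
          (some ((Nat.bits o).map eo.symm))
          (f (l.map Prod.fst).toFinset.card * (inpW m l).length ^ c)) :=
  opt_of_solve solve

end Pool.HMS.Opt
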